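import Pool.Agent.Helper89.TQ.Spec

set_option autoImplicit false

namespace Pool.Agent.Helper49.TQ.BR1

open Finset Pool.Agent.R6.Trade Pool.Agent.Helper89.TQ

variable {N : Type} [DecidableEq N] {t : ℕ}

/-- the number of the members of the types at most `j` -/
def cu (τ : N → Fin t) (S : Finset N) (j : Fin t) : ℕ := (S.filter fun v => τ v ≤ j).card

/-- shift monotonicity -/
theorem dom {W : Finset N → Prop} (hmono : ∀ S T : Finset N, S ⊆ T → W S → W T)
    (τ : N → Fin t) (hτ : ∀ a b, τ a ≤ τ b → AtLeast W a b) (k : ℕ) :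
    ∀ S T : Finset N, (S \ T).card = k → (∀ j, cu τ S j ≤ cu τ T j) → W S → W T := by
  induction k with
  | zero =>
    intro S T hk _ hW
    rw [card_eq_zero, sdiff_eq_empty_iff_subset] at hk
    exact hmono _ _ hk hW
  | succ k ih =>
    intro S T hk hc hW
    obtain ⟨a, ha, hmin⟩ := exists_min_image (S \ T) τ (card_pos.1 (by omega))
    have ha' := mem_sdiff.1 ha
    have hb : ∃ b, b ∈ T ∧ b ∉ S ∧ τ b ≤ τ a := by
      by_contra hcon
      push Not at hcon
      have hsub : T.filter (fun v => τ v ≤ τ a) ⊆ (S.filter (fun v => τ v ≤ τ a)).erase a := by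
        intro b hb
        have hb' := mem_filter.1 hb
        have hbS : b ∈ S := by
          by_contra h
          exact absurd hb'.2 (not_le.2 (hcon b hb'.1 h))
        refine mem_erase.2 ⟨?_, mem_filter.2 ⟨hbS, hb'.2⟩⟩
        rintro rfl
        exact ha'.2 hb'.1
      have h1 := card_le_card hsub
      have haS : a ∈ S.filter (fun v => τ v ≤ τ a) := mem_filter.2 ⟨ha'.1, le_rfl⟩
      rw [card_erase_of_mem haS] at h1
      have h2 := card_pos.2 ⟨a, haS⟩
      have h3 := hc (τ a)
      unfold cu at h3
      omega
    obtain ⟨b, hbT, hbS, hab⟩ := hb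
    apply ih (insert b (S.erase a)) T
    · have : insert b (S.erase a) \ T = (S \ T).erase a := by
        ext x
        simp only [mem_sdiff, mem_insert, mem_erase]
        constructor
        · rintro ⟨rfl | h, h2⟩
          · exact absurd hbT h2
          · exact ⟨h.1, h.2, h2⟩
        · rintro ⟨h1, h2, h3⟩
          exact ⟨Or.inr ⟨h1, h2⟩, h3⟩
      rw [this, card_erase_of_mem ha]
      omega
    · intro j
      rcases le_or_gt (τ a) j with h | h
      · refine le_trans ?_ (hc j)
        unfold cu
        have haS : a ∈ S.filter (fun v => τ v ≤ j) := mem_filter.2 ⟨ha'.1, h⟩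
        have hsub : (insert b (S.erase a)).filter (fun v => τ v ≤ j) ⊆
            insert b ((S.filter (fun v => τ v ≤ j)).erase a) := by
          intro x hx
          simp only [mem_filter, mem_insert, mem_erase] at hx ⊢
          tauto
        have h1 := card_le_card hsub
        have h2 := card_insert_le b ((S.filter (fun v => τ v ≤ j)).erase a)
        rw [card_erase_of_mem haS] at h2
        have h3 := card_pos.2 ⟨a, haS⟩
        omega
      · unfold cu
        apply card_le_card
        intro x hx
        obtain ⟨hx1, hx2⟩ := mem_filter.1 hx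
        refine mem_filter.2 ⟨?_, hx2⟩
        rcases mem_insert.1 hx1 with rfl | hx3
        · exact hbT
        · obtain ⟨hxa, hxS⟩ := mem_erase.1 hx3
          by_contra hxT
          have := hmin x (mem_sdiff.2 ⟨hxS, hxT⟩)
          exact absurd (lt_of_le_of_lt (this.trans hx2) h) (lt_irrefl _)
    · apply hτ b a hab (S.erase a)
      · simp [hbS]
      · simp
      · rwa [insert_erase ha'.1]

theorem cu0 (τ : N → Fin 3) (S : Finset N) : cu τ S 0 = vec τ S 0 := by
  unfold cu vec
  congr 1
  ext v
  simp only [mem_filter, and_congr_right_iff]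
  intro _
  generalize τ v = i
  fin_cases i <;> decide

theorem cu1 (τ : N → Fin 3) (S : Finset N) : cu τ S 1 = vec τ S 0 + vec τ S 1 := by
  unfold cu vec
  rw [← card_union_of_disjoint]
  · congr 1
    ext v
    simp only [mem_filter, mem_union]
    generalize τ v = i
    fin_cases i <;> simp
  · rw [disjoint_filter]
    intro v _ h
    rw [h]
    decide

theorem cu2 (τ : N → Fin 3) (S : Finset N) :
    cu τ S 2 = vec τ S 0 + vec τ S 1 + vec τ S 2 := by
  rw [← cu1]
  unfold cu vec
  rw [← card_union_of_disjoint]
  · congr 1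
    ext v
    simp only [mem_filter, mem_union]
    generalize τ v = i
    fin_cases i <;> simp
  · rw [disjoint_filter]
    intro v _ h h2
    rw [h2] at h
    exact absurd h (by decide)

/-- BR1: shift monotonicity of winning -/
theorem main (N : Type) [DecidableEq N] (W : Finset N → Prop) (τ : N → Fin 3)
    (hmono : ∀ S T : Finset N, S ⊆ T → W S → W T)
    (hτ : ∀ u v, AtLeast W u v ↔ τ u ≤ τ v) (S T : Finset N) (hS : W S)
    (h : GE (vec τ T) (vec τ S)) : W T := by
  obtain ⟨h0, h1, h2⟩ := h
  refine dom hmono τ (fun a b hab => (hτ a b).2 hab) _ S T rfl (fun j => ?_) hS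
  fin_cases j
  · show cu τ S 0 ≤ cu τ T 0
    rw [cu0, cu0]; exact h0
  · show cu τ S 1 ≤ cu τ T 1
    rw [cu1, cu1]; exact h1
  · show cu τ S 2 ≤ cu τ T 2
    rw [cu2, cu2]; exact h2

end Pool.Agent.Helper49.TQ.BR1
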