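import Pool.Agent.Helper49.TQ.BR1

set_option autoImplicit false

namespace Pool.Agent.Helper49.TQ.BRIDGE

open Finset Pool.Agent.R6.Trade Pool.Agent.Helper89.TQ

theorem vec_insert {N : Type} [DecidableEq N] {t : ℕ} (τ : N → Fin t) {S : Finset N} {u : N}
    (hu : u ∉ S) (i : Fin t) :
    vec τ (insert u S) i = vec τ S i + if τ u = i then 1 else 0 := by
  unfold vec
  rw [filter_insert]
  split_ifs with h
  · rw [card_insert_of_notMem (by simp [hu])]
  · rfl

theorem ge_trans {x y z : Fin 3 → ℕ} (h1 : GE x y) (h2 : GE y z) : GE x z := by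
  obtain ⟨a1, a2, a3⟩ := h1
  obtain ⟨b1, b2, b3⟩ := h2
  exact ⟨by omega, by omega, by omega⟩

theorem ge_refl (x : Fin 3 → ℕ) : GE x x := ⟨le_rfl, le_rfl, le_rfl⟩

theorem main : S_BRIDGE := by
  intro N _ _ W τ a b hsim hsurj hτ hab hmin
  have hmono := hsim.2.2
  have ma : MinWin W τ a := (hmin a).2 (Or.inl rfl)
  have mb : MinWin W τ b := (hmin b).2 (Or.inr rfl)
  obtain ⟨Sa, hSa, hva⟩ := ma.1
  obtain ⟨Sb, hSb, hvb⟩ := mb.1
  have hshift : ∀ S T, W S → GE (vec τ T) (vec τ S) → W T := fun S T hS h =>
    BR1.main N W τ hmono hτ S T hS h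
  have hwin : ∀ S, W S ↔ Win a b (vec τ S) := by
    intro S
    constructor
    · have key : ∀ k : ℕ, ∀ S, 3 * vec τ S 0 + 2 * vec τ S 1 + vec τ S 2 = k → W S →
          Win a b (vec τ S) := by
        intro k
        induction k using Nat.strong_induction_on with
        | _ k ih =>
          intro S hk hW
          by_cases hm : MinWin W τ (vec τ S)
          · rcases (hmin _).1 hm with h | h
            · left; rw [h]; exact ge_refl a
            · right; rw [h]; exact ge_refl b
          · have h1 : ∃ S', W S' ∧ GE (vec τ S) (vec τ S') ∧ vec τ S' ≠ vec τ S := by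
              by_contra hcon
              push Not at hcon
              exact hm ⟨⟨S, hW, rfl⟩, hcon⟩
            obtain ⟨S', hW', hge, hne⟩ := h1
            have hlt : 3 * vec τ S' 0 + 2 * vec τ S' 1 + vec τ S' 2 < k := by
              obtain ⟨g0, g1, g2⟩ := hge
              by_contra hcon
              apply hne
              have e0 : vec τ S' 0 = vec τ S 0 := by omega
              have e1 : vec τ S' 1 = vec τ S 1 := by omega
              have e2 : vec τ S' 2 = vec τ S 2 := by omega
              funext i
              fin_cases i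
              · exact e0
              · exact e1
              · exact e2
            rcases ih _ hlt S' rfl hW' with h | h
            · exact Or.inl (ge_trans hge h)
            · exact Or.inr (ge_trans hge h)
      exact fun hW => key _ S rfl hW
    · rintro (h | h)
      · exact hshift Sa S hSa (by rw [hva]; exact h)
      · exact hshift Sb S hSb (by rw [hvb]; exact h)
  -- the types differ
  have hdiff : ∀ i j : Fin 3, i < j → ∃ (x : Fin 3 → ℕ), x j + 1 ≤ nn τ j ∧
      Win a b (fun l => x l + if i = l then 1 else 0) ∧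
      ¬ Win a b (fun l => x l + if j = l then 1 else 0) := by
    intro i j hij
    obtain ⟨u, hu⟩ := hsurj i
    obtain ⟨v, hv⟩ := hsurj j
    have hn : ¬ AtLeast W v u := by
      rw [hτ, hu, hv]
      exact not_le.2 hij
    unfold AtLeast at hn
    push Not at hn
    obtain ⟨S, hvS, huS, hW1, hW2⟩ := hn
    refine ⟨vec τ S, ?_, ?_, ?_⟩
    · have h1 := vec_le τ (insert v S) j
      rw [vec_insert τ hvS, if_pos hv] at h1
      exact h1
    · have h1 := (hwin _).1 hW1
      have h2 : vec τ (insert u S) = fun l => vec τ S l + if i = l then 1 else 0 := by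
        funext l
        rw [vec_insert τ huS, hu]
      rwa [h2] at h1
    · have h1 := fun h => hW2 ((hwin _).2 h)
      have h2 : vec τ (insert v S) = fun l => vec τ S l + if j = l then 1 else 0 := by
        funext l
        rw [vec_insert τ hvS, hv]
      rwa [h2] at h1
  refine ⟨fun i => ?_, fun i => ?_, fun h => ?_, fun h => ?_, ?_, ?_, hwin⟩
  · rw [← hva]; exact vec_le τ Sa i
  · rw [← hvb]; exact vec_le τ Sb i
  · have := ma.2 Sb hSb (by rw [hvb]; exact h)
    exact hab (this.symm.trans hvb)
  · have := mb.2 Sa hSa (by rw [hva]; exact h)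
    exact hab (hva.symm.trans this)
  · obtain ⟨x, hx, h1, h2⟩ := hdiff 0 1 (by decide)
    unfold Win GE at h1 h2
    have e1 : ((0 : Fin 3) = 1) = False := by simp
    have e2 : ((0 : Fin 3) = 2) = False := by simp
    have e3 : ((1 : Fin 3) = 0) = False := by simp
    have e4 : ((1 : Fin 3) = 2) = False := by simp
    simp only [e1, e2, e3, e4, if_true, if_false] at h1 h2
    omega
  · obtain ⟨x, hx, h1, h2⟩ := hdiff 1 2 (by decide)
    unfold Win GE at h1 h2
    have e1 : ((1 : Fin 3) = 0) = False := by simp
    have e2 : ((1 : Fin 3) = 2) = False := by simp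
    have e3 : ((2 : Fin 3) = 0) = False := by simp
    have e4 : ((2 : Fin 3) = 1) = False := by simp
    simp only [e1, e2, e3, e4, if_true, if_false] at h1 h2
    omega

end Pool.Agent.Helper49.TQ.BRIDGE
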